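import Pool.Agent.Y968.TP.OutE

/-!
# TP-OUT: a triple point is pushed through the boundary (algebra)
-/

set_option autoImplicit false

namespace Pool.Agent.Y968.TP

open Pool.Agent.Y468.SR Pool.Agent.Y874.TP

/-- `S_OUT` with the additional assumption that `D` itself is well formed -/
def S_OUT2 : Prop := ∀ (D O : Code) (T : Tri) (m : ℕ → ℕ) (p r : Pass) (C : List Pass × ℕ)
  (a c : List Pass) (na nb : ℕ), T.Ok → T.Col → T.ei = true → WF (passes D) →
  WF (passes (D ++ (T.code ++ O))) → InvM (D ++ (T.code ++ O)) m →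
  C ∈ D → C.1 = a ++ p :: r :: c →
  m p.crossing = T.a₁ → p.isOver = T.ta → m r.crossing = T.b₁ → r.isOver = T.tb →
  na ≠ nb → (∀ q ∈ passes (D ++ (T.code ++ O)), q.crossing ≠ na ∧ q.crossing ≠ nb) →
  colour na = colour T.c₁ → colour nb = colour T.c₁ →
  WF (passes (out p r T.tc na nb D ++ O)) ∧ InvC (out p r T.tc na nb D ++ O)

variable {D O : Code} {T : Tri} {m : ℕ → ℕ} {p r : Pass} {na nb : ℕ} {l2 : List Pass}
  {G : Type} [Group G] {o u : ℕ → G}

theorem Cfg.wi (h : Cfg D O T m p r na nb l2) :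
    wval (fun c => gW o u T p r na nb c true) (fun c => gW o u T p r na nb c false) T.wi = 1 := by
  unfold Tri.wi word4
  rw [if_pos h.hei]
  simp only [wval_cons, wval_nil, mul_one, val_gW, Tri.pa₁, Tri.pa₂, Tri.pb₁, Tri.pb₂, h.inv1, h.inv2, h.z1,
    h.z2, h.W1, h.W5]
  rw [gP, gR]
  group

theorem Cfg.wj (h : Cfg D O T m p r na nb l2) :
    wval (fun c => gW o u T p r na nb c true) (fun c => gW o u T p r na nb c false) T.wj = 1 := by
  have z3 : ∀ l, gW o u T p r na nb (cA T) l = VV o u na l := h.z3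
  have z4 : ∀ l, gW o u T p r na nb (cB T) l = VV o u nb l := h.z4
  unfold Tri.wj word4
  by_cases hej : T.ej = true
  · have e1 : cA T = T.c₂ := by simp [cA, hej]
    have e2 : cB T = T.c₁ := by simp [cB, hej]
    rw [e1] at z3
    rw [e2] at z4
    rw [if_pos hej]
    simp only [wval_cons, wval_nil, mul_one, val_gW, Tri.pa₁, Tri.pa₂, Tri.pc₁, Tri.pc₂, Pass.mate, h.inv1,
      h.W2, h.z1, z3, z4]
    rw [gPm]
    group
  · have e1 : cA T = T.c₁ := by simp [cA, hej]
    have e2 : cB T = T.c₂ := by simp [cB, hej]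
    rw [e1] at z3
    rw [e2] at z4
    rw [if_neg hej]
    simp only [wval_cons, wval_nil, mul_one, val_gW, Tri.pa₁, Tri.pa₂, Tri.pc₁, Tri.pc₂, Pass.mate, h.inv1,
      h.W2, h.z1, z3, z4]
    rw [gPm]
    group

theorem Cfg.wk (h : Cfg D O T m p r na nb l2) :
    wval (fun c => gW o u T p r na nb c true) (fun c => gW o u T p r na nb c false) T.wk = 1 := by
  have z3 : ∀ l, gW o u T p r na nb (cA T) l = VV o u na l := h.z3
  have z4 : ∀ l, gW o u T p r na nb (cB T) l = VV o u nb l := h.z4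
  unfold Tri.wk word4
  by_cases hej : T.ej = true
  · have e1 : cA T = T.c₂ := by simp [cA, hej]
    have e2 : cB T = T.c₁ := by simp [cB, hej]
    rw [e1] at z3
    rw [e2] at z4
    by_cases hek : T.ek = true
    · have e3 : par p r = true := by rw [h.hpar, hej, hek]; rfl
      rw [if_pos hek]
      simp only [wval_cons, wval_nil, mul_one, val_gW, Tri.pb₁, Tri.pb₂, Tri.pc₁, Tri.pc₂, Pass.mate, h.inv2,
        h.W6, h.z2, z3, z4]
      rw [gRm, if_pos e3]
      group
    · have e3 : ¬ par p r = true := by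
        rw [h.hpar, hej]
        cases h : T.ek <;> simp_all
      rw [if_neg hek]
      simp only [wval_cons, wval_nil, mul_one, val_gW, Tri.pb₁, Tri.pb₂, Tri.pc₁, Tri.pc₂, Pass.mate, h.inv2,
        h.W6, h.z2, z3, z4]
      rw [gRm, if_neg e3]
      group
  · have hej' : T.ej = false := by cases h : T.ej <;> simp_all
    have e1 : cA T = T.c₁ := by simp [cA, hej]
    have e2 : cB T = T.c₂ := by simp [cB, hej]
    rw [e1] at z3
    rw [e2] at z4
    by_cases hek : T.ek = true
    · have e3 : ¬ par p r = true := by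
        rw [h.hpar, hej', hek]
        simp
      rw [if_pos hek]
      simp only [wval_cons, wval_nil, mul_one, val_gW, Tri.pb₁, Tri.pb₂, Tri.pc₁, Tri.pc₂, Pass.mate, h.inv2,
        h.W6, h.z2, z3, z4]
      rw [gRm, if_neg e3]
      group
    · have hek' : T.ek = false := by cases h : T.ek <;> simp_all
      have e3 : par p r = true := by rw [h.hpar, hej', hek']; rfl
      rw [if_neg hek]
      simp only [wval_cons, wval_nil, mul_one, val_gW, Tri.pb₁, Tri.pb₂, Tri.pc₁, Tri.pc₂, Pass.mate, h.inv2,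
        h.W6, h.z2, z3, z4]
      rw [gRm, if_pos e3]
      group

theorem out_inv : S_OUT2 := by
  intro D O T m p r C a c na nb hOk hCol hei hD hW hI hC hsplit hma hpo hmb hro hne hnew hca hcb
  obtain ⟨hM, hCM, hN⟩ := hI
  have hp : p ∈ passes D := mem_passes.2 ⟨C, hC, by simp [hsplit]⟩
  have hr : r ∈ passes D := mem_passes.2 ⟨C, hC, by simp [hsplit]⟩
  obtain ⟨l2, h⟩ := exists_cfg hOk hei hD hW hM hp hr hma hpo hmb hro hne hnew
  refine ⟨h.wf', _, h.tr.matching hM, h.tr.cm hM hCM (fun d s _ _ => h.col hCol hca hcb hCM d), ?_⟩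
  intro G _ o u hv b
  have h1 := hN G _ _ (h.valid hv) b
  rw [vals_append, vals_append, bv_append, bv_append, h.valsO, h.valsD hC hsplit] at h1
  rw [vals_append, bv_append]
  refine cn_ones ?_ h1
  intro g hg
  simp only [Tri.code, vals, List.map_cons, List.map_nil, h.wi, h.wj, h.wk, bv, List.mem_map, List.mem_filter,
    List.mem_cons, List.not_mem_nil, or_false] at hg
  obtain ⟨⟨g', b'⟩, ⟨h2, -⟩, rfl⟩ := hg
  rcases h2 with h2 | h2 | h2 <;> exact congrArg Prod.fst h2

end Pool.Agent.Y968.TP
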