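import Pool.Agent.Y874.TP.Stm
import Pool.Agent.Y468.SR.Dbl

/-!
# TP-OUT, part 1: transport of matchings
-/

set_option autoImplicit false

namespace Pool.Agent.Y968.TP

open Pool.Agent.Y468.SR Pool.Agent.Y874.TP

/-- the crossing `c` occurs with the sign `s` -/
def Occ (P : List Pass) (c : ℕ) (s : Bool) : Prop := ∃ q ∈ P, q.crossing = c ∧ q.isPos = s

theorem occ_perm {P Q : List Pass} (h : P.Perm Q) (c : ℕ) (s : Bool) : Occ P c s ↔ Occ Q c s := by
  unfold Occ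
  constructor
  · rintro ⟨q, hq, h1⟩; exact ⟨q, h.subset hq, h1⟩
  · rintro ⟨q, hq, h1⟩; exact ⟨q, h.symm.subset hq, h1⟩

theorem occ_nil (c : ℕ) (s : Bool) : Occ [] c s ↔ False := by simp [Occ]

theorem occ_cons (q : Pass) (P : List Pass) (c : ℕ) (s : Bool) :
    Occ (q :: P) c s ↔ (c = q.crossing ∧ s = q.isPos) ∨ Occ P c s := by
  unfold Occ
  simp only [List.mem_cons, exists_eq_or_imp]
  constructor
  · rintro (⟨h1, h2⟩ | h)
    · exact Or.inl ⟨h1.symm, h2.symm⟩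
    · exact Or.inr h
  · rintro (⟨h1, h2⟩ | h)
    · exact Or.inl ⟨h1.symm, h2.symm⟩
    · exact Or.inr h

theorem occ_unique {P : List Pass} (h : WF P) {c : ℕ} {s s' : Bool} (h1 : Occ P c s) (h2 : Occ P c s') :
    s = s' := by
  obtain ⟨q, hq, hc, rfl⟩ := h1
  obtain ⟨q', hq', hc', rfl⟩ := h2
  have hW : WellFormed [(P, 0)] := by
    rw [wf_iff]
    simpa using h
  exact hW.sign_eq (by simpa using hq') (by simpa using hq) (by rw [hc, hc'])

theorem matching_iff {P : List Pass} {m : ℕ → ℕ} : Matching P m ↔ ∀ c s, Occ P c s →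
    ∃ s', Occ P (m c) s' ∧ m (m c) = c ∧ (m c ≠ c → s' = !s) := by
  constructor
  · rintro h c s ⟨p, hp, rfl, rfl⟩
    obtain ⟨q, hq, h1, h2, h3⟩ := h p hp
    refine ⟨q.isPos, ⟨q, hq, h1, rfl⟩, by rw [← h1]; exact h2, fun hne => h3 (by rw [h1]; exact hne)⟩
  · intro h p hp
    obtain ⟨s', ⟨q, hq, h1, h2⟩, h3, h4⟩ := h p.crossing p.isPos ⟨p, hp, rfl, rfl⟩
    refine ⟨q, hq, h1, by rw [h1]; exact h3, fun hne => ?_⟩
    rw [h2]
    exact h4 (by rw [← h1]; exact hne)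

/-- the data of a transport of a matching from the passages `P` to the passages `P'` -/
structure Tr (P P' : List Pass) (m : ℕ → ℕ) (K : ℕ → Prop) (σ ρ : ℕ → ℕ) : Prop where
  h1 : ∀ c s, Occ P' c s → Occ P (σ c) s ∧ K (σ c) ∧ ρ (σ c) = c
  h2 : ∀ d s, Occ P d s → K d → Occ P' (ρ d) s ∧ σ (ρ d) = d
  h3 : ∀ d s, Occ P d s → K d → K (m d)

section
variable {P P' : List Pass} {m : ℕ → ℕ} {K : ℕ → Prop} {σ ρ : ℕ → ℕ}

theorem Tr.matching (t : Tr P P' m K σ ρ) (hm : Matching P m) : Matching P' (fun c => ρ (m (σ c))) := by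
  rw [matching_iff] at hm ⊢
  intro c s hc
  obtain ⟨h1, h2, h3⟩ := t.h1 c s hc
  obtain ⟨s', h4, h5, h6⟩ := hm _ _ h1
  obtain ⟨h7, h8⟩ := t.h2 _ _ h4 (t.h3 _ _ h1 h2)
  refine ⟨s', h7, ?_, fun hne => h6 fun h9 => hne ?_⟩
  · show ρ (m (σ (ρ (m (σ c))))) = c
    rw [h8, h5, h3]
  · show ρ (m (σ c)) = c
    rw [h9, h3]

theorem Tr.cm (t : Tr P P' m K σ ρ) (hm : Matching P m) (hc : CM P m)
    (hρ : ∀ d s, Occ P d s → K d → colour (ρ d) = colour d) : CM P' (fun c => ρ (m (σ c))) := by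
  rw [matching_iff] at hm
  intro q hq
  obtain ⟨h1, h2, h3⟩ := t.h1 q.crossing q.isPos ⟨q, hq, rfl, rfl⟩
  obtain ⟨s', h4, h5, h6⟩ := hm _ _ h1
  have h7 := t.h3 _ _ h1 h2
  obtain ⟨q', hq', e1, e2⟩ := h1
  obtain ⟨c1, c2⟩ := hc q' hq'
  rw [e1] at c1 c2
  have e3 : colour (σ q.crossing) = colour q.crossing := by
    rw [← hρ _ _ ⟨q', hq', e1, e2⟩ h2, h3]
  refine ⟨?_, fun h8 h9 => ?_⟩
  · show colour (ρ (m (σ q.crossing))) = colour q.crossing
    rw [hρ _ _ h4 h7, c1, e3]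
  · have h10 : m (σ q.crossing) = σ q.crossing := by
      have := (t.h2 _ _ h4 h7).2
      rw [← this]
      exact congrArg σ h9
    exact c2 (by rw [e3]; exact h8) h10

theorem Tr.valid (t : Tr P P' m K σ ρ) (hm : Matching P m) {G : Type} [Group G] {o u o' u' : ℕ → G}
    (hv : Valid P' (fun c => ρ (m (σ c))) o u) (hK : ∀ d s, Occ P d s → K d → o' d = o (ρ d) ∧ u' d = u (ρ d))
    (hn : ∀ d s, Occ P d s → ¬ K d → m d ≠ d ∧ o' (m d) = (o' d)⁻¹ ∧ u' (m d) = (u' d)⁻¹) :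
    Valid P m o' u' := by
  rw [matching_iff] at hm
  intro q hq
  have h1 : Occ P q.crossing q.isPos := ⟨q, hq, rfl, rfl⟩
  by_cases hk : K q.crossing
  · obtain ⟨s', h4, h5, h6⟩ := hm _ _ h1
    have h7 := t.h3 _ _ h1 hk
    obtain ⟨⟨q', hq', e1, e2⟩, e3⟩ := t.h2 _ _ h1 hk
    obtain ⟨v1, v2⟩ := hv q' hq'
    rw [e1] at v1 v2
    simp only [e3] at v1 v2
    obtain ⟨k1, k2⟩ := hK _ _ h1 hk
    obtain ⟨k3, k4⟩ := hK _ _ h4 h7
    refine ⟨fun h8 => ?_, fun h8 => ?_⟩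
    · rw [k1, k2]
      exact v1 (by rw [h8])
    · rw [k1, k2, k3, k4]
      refine v2 fun h9 => h8 ?_
      have h10 := (t.h2 _ _ h4 h7).2
      rw [← h10, h9, e3]
  · obtain ⟨n1, n2, n3⟩ := hn _ _ h1 hk
    exact ⟨fun h => absurd h n1, fun _ => ⟨n2, n3⟩⟩

end

/-- splitting off a crossing -/
theorem wf_split {l : List Pass} (h : WF l) {p : Pass} (hp : p ∈ l) : ∃ l', l.Perm (p :: p.mate :: l') := by
  obtain ⟨l1, h1⟩ : ∃ l1, l.Perm (p :: l1) := ⟨l.erase p, List.perm_cons_erase hp⟩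
  have h2 : p.mate ∈ p :: l1 := h1.subset (h.1 p hp)
  have h3 : p.mate ∈ l1 := by
    rcases List.mem_cons.1 h2 with h4 | h4
    · exfalso
      have := congrArg Pass.isOver h4
      simp at this
    · exact h4
  exact ⟨l1.erase p.mate, h1.trans (List.Perm.cons _ (List.perm_cons_erase h3))⟩

theorem wf_cons {l : List Pass} {p : Pass} (h : WF (p :: p.mate :: l)) :
    WF l ∧ ∀ q ∈ l, q.crossing ≠ p.crossing := by
  refine ⟨WF.remove (k := [p, p.mate]) h (by simp), fun q hq => ?_⟩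
  exact WF.ne_crossing (k := [p, p.mate]) (l := l) h (by simp) (by simp) hq

/-- adding a crossing -/
theorem wf_add {l : List Pass} {p q : Pass} (h : WF l) (hq : q = p.mate)
    (hne : ∀ q ∈ l, q.crossing ≠ p.crossing) : WF (p :: q :: l) := by
  subst hq
  refine WF.append (k := [p, p.mate]) ⟨by simp, ?_⟩ h ?_
  · simp [Pass.mate]
  · intro a ha b hb
    simp only [List.mem_cons, List.not_mem_nil, or_false] at ha
    rcases ha with rfl | rfl
    · exact (hne b hb).symm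
    · exact (hne b hb).symm

end Pool.Agent.Y968.TP
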