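import Pool.Agent.Y968.TP.OutA

/-!
# TP-OUT, part 2: the labels
-/

set_option autoImplicit false

namespace Pool.Agent.Y968.TP

open Pool.Agent.Y468.SR Pool.Agent.Y874.TP

/-- four names are exchanged -/
def sub4 (p₁ p₂ p₃ p₄ q₁ q₂ q₃ q₄ c : ℕ) : ℕ :=
  if c = p₁ then q₁ else if c = p₂ then q₂ else if c = p₃ then q₃ else if c = p₄ then q₄ else c

/-- the names of the crossings are different -/
structure Nm (x y a₁ a₂ b₁ b₂ cA cB na nb : ℕ) : Prop where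
  nd : [x, y, a₁, a₂, b₁, b₂, cA, cB, na, nb].Nodup

/-- crossings which are kept -/
def KK (x y a₁ b₁ d : ℕ) : Prop := d ≠ x ∧ d ≠ a₁ ∧ d ≠ y ∧ d ≠ b₁

section
variable {x y a₁ a₂ b₁ b₂ cA cB na nb : ℕ} {sa sb sA sB : Bool} {P P' R : List Pass} {m : ℕ → ℕ}

theorem tr_main (hN : [x, y, a₁, a₂, b₁, b₂, cA, cB, na, nb].Nodup)
    (hP : ∀ c s, Occ P c s ↔ (c = x ∧ s = sa) ∨ (c = y ∧ s = sb) ∨ (c = a₁ ∧ s = !sa) ∨ (c = a₂ ∧ s = sa) ∨
      (c = b₁ ∧ s = !sb) ∨ (c = b₂ ∧ s = sb) ∨ (c = cA ∧ s = sA) ∨ (c = cB ∧ s = sB) ∨ Occ R c s)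
    (hP' : ∀ c s, Occ P' c s ↔ (c = x ∧ s = sa) ∨ (c = y ∧ s = sb) ∨ (c = na ∧ s = sA) ∨ (c = nb ∧ s = sB) ∨
      Occ R c s)
    (hR : ∀ c s, Occ R c s → c ∉ [x, y, a₁, a₂, b₁, b₂, cA, cB, na, nb])
    (hm : Matching P m) (hx : m x = a₁) (hy : m y = b₁) :
    Tr P P' m (KK x y a₁ b₁) (sub4 x y na nb a₂ b₂ cA cB) (sub4 a₂ b₂ cA cB x y na nb) := by
  rw [matching_iff] at hm
  simp only [List.nodup_cons, List.mem_cons, List.not_mem_nil, or_false, not_or, List.nodup_nil, and_true,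
    not_false_eq_true] at hN
  simp only [List.mem_cons, List.not_mem_nil, or_false, not_or] at hR
  obtain ⟨⟨n1, n2, n3, n4, n5, n6, n7, n8, n9⟩, ⟨p2, p3, p4, p5, p6, p7, p8, p9⟩, ⟨q3, q4, q5, q6, q7, q8, q9⟩,
    ⟨r4, r5, r6, r7, r8, r9⟩, ⟨s5, s6, s7, s8, s9⟩, ⟨t6, t7, t8, t9⟩, ⟨u7, u8, u9⟩, ⟨v8, v9⟩, w9⟩ := hN
  have hmx : m a₁ = x := by
    obtain ⟨s', h1, h2, h3⟩ := hm x sa ((hP x sa).2 (Or.inl ⟨rfl, rfl⟩))
    rw [hx] at h2
    exact h2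
  have hmy : m b₁ = y := by
    obtain ⟨s', h1, h2, h3⟩ := hm y sb ((hP y sb).2 (Or.inr (Or.inl ⟨rfl, rfl⟩)))
    rw [hy] at h2
    exact h2
  refine ⟨fun c s h => ?_, fun d s h hk => ?_, fun d s h hk => ?_⟩
  · rw [hP'] at h
    rcases h with ⟨rfl, rfl⟩ | ⟨rfl, rfl⟩ | ⟨rfl, rfl⟩ | ⟨rfl, rfl⟩ | h
    · have e : sub4 c y na nb a₂ b₂ cA cB c = a₂ := by simp [sub4]
      rw [e]
      refine ⟨(hP _ _).2 (by tauto), ⟨Ne.symm n3, Ne.symm q3, Ne.symm p3, r4⟩, by simp [sub4]⟩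
    · have e : sub4 x c na nb a₂ b₂ cA cB c = b₂ := by simp [sub4, Ne.symm n1]
      rw [e]
      refine ⟨(hP _ _).2 (by tauto), ⟨Ne.symm n5, Ne.symm q5, Ne.symm p5, Ne.symm s5⟩,
        by simp [sub4, Ne.symm r5]⟩
    · have e : sub4 x y c nb a₂ b₂ cA cB c = cA := by simp [sub4, Ne.symm n8, Ne.symm p8]
      rw [e]
      refine ⟨(hP _ _).2 (by tauto), ⟨Ne.symm n6, Ne.symm q6, Ne.symm p6, Ne.symm s6⟩,
        by simp [sub4, Ne.symm r6, Ne.symm t6]⟩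
    · have e : sub4 x y na c a₂ b₂ cA cB c = cB := by simp [sub4, Ne.symm n9, Ne.symm p9, Ne.symm w9]
      rw [e]
      refine ⟨(hP _ _).2 (by tauto), ⟨Ne.symm n7, Ne.symm q7, Ne.symm p7, Ne.symm s7⟩,
        by simp [sub4, Ne.symm r7, Ne.symm t7, Ne.symm u7]⟩
    · obtain ⟨k1, k2, k3, k4, k5, k6, k7, k8, k9, k10⟩ := hR c s h
      have e : sub4 x y na nb a₂ b₂ cA cB c = c := by simp [sub4, k1, k2, k9, k10]
      rw [e]
      refine ⟨(hP _ _).2 (by tauto), ⟨k1, k3, k2, k5⟩, by simp [sub4, k4, k6, k7, k8]⟩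
  · obtain ⟨k1, k2, k3, k4⟩ := hk
    rw [hP] at h
    rcases h with ⟨rfl, rfl⟩ | ⟨rfl, rfl⟩ | ⟨rfl, rfl⟩ | ⟨rfl, rfl⟩ | ⟨rfl, rfl⟩ | ⟨rfl, rfl⟩ | ⟨rfl, rfl⟩ |
      ⟨rfl, rfl⟩ | h
    · exact absurd rfl k1
    · exact absurd rfl k3
    · exact absurd rfl k2
    · have e : sub4 d b₂ cA cB x y na nb d = x := by simp [sub4]
      rw [e]
      exact ⟨(hP' _ _).2 (by tauto), by simp [sub4]⟩
    · exact absurd rfl k4
    · have e : sub4 a₂ d cA cB x y na nb d = y := by simp [sub4, Ne.symm r5]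
      rw [e]
      exact ⟨(hP' _ _).2 (by tauto), by simp [sub4, Ne.symm n1]⟩
    · have e : sub4 a₂ b₂ d cB x y na nb d = na := by simp [sub4, Ne.symm r6, Ne.symm t6]
      rw [e]
      exact ⟨(hP' _ _).2 (by tauto), by simp [sub4, Ne.symm n8, Ne.symm p8]⟩
    · have e : sub4 a₂ b₂ cA d x y na nb d = nb := by simp [sub4, Ne.symm r7, Ne.symm t7, Ne.symm u7]
      rw [e]
      exact ⟨(hP' _ _).2 (by tauto), by simp [sub4, Ne.symm n9, Ne.symm p9, Ne.symm w9]⟩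
    · obtain ⟨l1, l2, l3, l4, l5, l6, l7, l8, l9, l10⟩ := hR d s h
      have e : sub4 a₂ b₂ cA cB x y na nb d = d := by simp [sub4, l4, l6, l7, l8]
      rw [e]
      exact ⟨(hP' _ _).2 (by tauto), by simp [sub4, l1, l2, l9, l10]⟩
  · obtain ⟨k1, k2, k3, k4⟩ := hk
    obtain ⟨s', h1, h2, h3⟩ := hm d s h
    refine ⟨fun e => k2 ?_, fun e => k1 ?_, fun e => k4 ?_, fun e => k3 ?_⟩
    · rw [← h2, e, hx]
    · rw [← h2, e, hmx]
    · rw [← h2, e, hy]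
    · rw [← h2, e, hmy]

end

section
variable {G : Type} [Group G]

/-- labels as functions of the crossing and of the height -/
def VV (o u : ℕ → G) (c : ℕ) (l : Bool) : G := if l then o c else u c

theorem val_VV (o u : ℕ → G) (q : Pass) : val o u q = VV o u q.crossing q.isOver := rfl

/-- the new labels -/
def WW (x y a₁ b₁ : ℕ) (ta tb : Bool) (Pp Pm Rp Rm : G) (V₀ : ℕ → Bool → G) (c : ℕ) (l : Bool) : G :=
  if c = x then (if l = ta then Pp else Pm)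
  else if c = a₁ then (if l = ta then Pp⁻¹ else Pm⁻¹)
  else if c = y then (if l = tb then Rp else Rm)
  else if c = b₁ then (if l = tb then Rp⁻¹ else Rm⁻¹)
  else V₀ c l

theorem VV_mk (W : ℕ → Bool → G) (c : ℕ) (l : Bool) :
    VV (fun c => W c true) (fun c => W c false) c l = W c l := by
  unfold VV
  cases l <;> simp

theorem cn_ones {A B L : List G} (h : ∀ g ∈ L, g = 1) (hc : CN (A ++ (L ++ B))) : CN (A ++ B) := by
  induction L with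
  | nil => simpa using hc
  | cons g L ih =>
    refine ih (fun g' hg' => h g' (by simp [hg'])) ?_
    have h1 : g = 1 := h g (by simp)
    subst h1
    rw [List.cons_append] at hc
    exact CN.one_cons.1 (CN.perm List.perm_middle hc)

end

end Pool.Agent.Y968.TP
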