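import Pool.Agent.Y968.TP.OutB

/-!
# TP-OUT, part 3: the configuration
-/

set_option autoImplicit false

namespace Pool.Agent.Y968.TP

open Pool.Agent.Y468.SR Pool.Agent.Y874.TP

theorem passes_out (p r : Pass) (tc : Bool) (na nb : ℕ) (D : Code) :
    passes (out p r tc na nb D) = (passes D).flatMap (ext p r tc na nb) := by
  unfold out passes
  induction D with
  | nil => rfl
  | cons C D ih =>
    simp only [List.map_cons, List.flatMap_cons, List.flatMap_append]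
    rw [← ih]

/-- the crossings nearest to the third one -/
def cA (T : Tri) : ℕ := if T.ej then T.c₂ else T.c₁
def cB (T : Tri) : ℕ := if T.ej then T.c₁ else T.c₂
def sB (T : Tri) : Bool := xor T.sc T.ej

def pcA (T : Tri) : Pass := ⟨cA T, T.tc, !sB T⟩
def pcB (T : Tri) : Pass := ⟨cB T, T.tc, sB T⟩

/-- the passages of the three circles -/
def tw (T : Tri) : List Pass :=
  T.pa₁ :: T.pa₁.mate :: T.pb₁ :: T.pb₁.mate :: T.pa₂ :: T.pa₂.mate :: T.pb₂ :: T.pb₂.mate ::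
    pcA T :: (pcA T).mate :: pcB T :: (pcB T).mate :: []

theorem code_perm (T : Tri) : (passes T.code).Perm (tw T) := by
  obtain ⟨a₁, a₂, b₁, b₂, c₁, c₂, ta, tb, tc, sa, sb, sc, ei, ej, ek, li, lj, lk⟩ := T
  rw [List.perm_iff_count]
  intro q
  cases ei <;> cases ej <;> cases ek <;> cases sc <;>
    simp only [tw, pcA, pcB, cA, cB, sB, passes, Tri.code, Tri.wi, Tri.wj, Tri.wk, word4, Tri.pa₁, Tri.pa₂, Tri.pb₁,
      Tri.pb₂, Tri.pc₁, Tri.pc₂, Pass.mate, List.flatMap_cons, List.flatMap_nil, if_true, if_false,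
      List.append_nil, List.cons_append, List.nil_append, List.count_cons, List.count_nil, Bool.false_eq_true,
      Bool.not_true, Bool.not_false, Bool.xor_true, Bool.xor_false, Bool.true_xor, Bool.false_xor] <;>
    omega

theorem par_sgn {T : Tri} {p r : Pass} (hOk : T.Ok) (hei : T.ei = true) (hpo : p.isOver = T.ta)
    (hro : r.isOver = T.tb) (hps : p.isPos = T.sa) (hrs : r.isPos = T.sb) :
    par p r = (T.ej == T.ek) ∧ sgn p r T.tc = sB T := by
  obtain ⟨a₁, a₂, b₁, b₂, c₁, c₂, ta, tb, tc, sa, sb, sc, ei, ej, ek, li, lj, lk⟩ := T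
  obtain ⟨x, po, ps⟩ := p
  obtain ⟨y, ro, rs⟩ := r
  simp only at hpo hro hps hrs hei
  subst hpo hro hps hrs hei
  revert hOk
  unfold Tri.Ok par sgn sB par
  cases po <;> cases ro <;> cases tc <;> cases ps <;> cases rs <;> cases sc <;> cases ej <;> cases ek <;> simp

/-- the configuration -/
structure Cfg (D O : Code) (T : Tri) (m : ℕ → ℕ) (p r : Pass) (na nb : ℕ) (l2 : List Pass) : Prop where
  nod : [p.crossing, r.crossing, T.a₁, T.a₂, T.b₁, T.b₂, cA T, cB T, na, nb].Nodup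
  perm1 : (passes (D ++ (T.code ++ O))).Perm (tw T ++ (passes D ++ passes O))
  perm4 : (passes D).Perm (p :: p.mate :: r :: r.mate :: l2)
  dox : ∀ q ∈ passes D ++ passes O, q.crossing ≠ T.a₁ ∧ q.crossing ≠ T.a₂ ∧ q.crossing ≠ T.b₁ ∧
    q.crossing ≠ T.b₂ ∧ q.crossing ≠ cA T ∧ q.crossing ≠ cB T ∧ q.crossing ≠ na ∧ q.crossing ≠ nb
  l2x : ∀ q ∈ l2, q.crossing ≠ p.crossing ∧ q.crossing ≠ r.crossing
  ox : ∀ q ∈ passes O, q.crossing ≠ p.crossing ∧ q.crossing ≠ r.crossing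
  wf : WF (passes D ++ passes O)
  wfD : WF (passes D)
  hma : m p.crossing = T.a₁
  hmb : m r.crossing = T.b₁
  hpo : p.isOver = T.ta
  hro : r.isOver = T.tb
  hps : p.isPos = T.sa
  hrs : r.isPos = T.sb
  hpar : par p r = (T.ej == T.ek)
  hsgn : sgn p r T.tc = sB T
  hei : T.ei = true
  hM : Matching (passes (D ++ (T.code ++ O))) m

theorem exists_cfg {D O : Code} {T : Tri} {m : ℕ → ℕ} {p r : Pass} {na nb : ℕ} (hOk : T.Ok)
    (hei : T.ei = true) (hD : WF (passes D))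
    (hW : WF (passes (D ++ (T.code ++ O)))) (hM : Matching (passes (D ++ (T.code ++ O))) m)
    (hp : p ∈ passes D) (hr : r ∈ passes D)
    (hma : m p.crossing = T.a₁) (hpo : p.isOver = T.ta) (hmb : m r.crossing = T.b₁) (hro : r.isOver = T.tb)
    (hne : na ≠ nb) (hnew : ∀ q ∈ passes (D ++ (T.code ++ O)), q.crossing ≠ na ∧ q.crossing ≠ nb) :
    ∃ l2, Cfg D O T m p r na nb l2 := by
  -- the whole list of passages
  have e0 : passes (D ++ (T.code ++ O)) = passes D ++ (passes T.code ++ passes O) := by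
    rw [passes_append, passes_append]
  have perm1 : (passes (D ++ (T.code ++ O))).Perm (tw T ++ (passes D ++ passes O)) := by
    rw [e0]
    refine (List.Perm.append_left _ (List.Perm.append_right _ (code_perm T))).trans ?_
    rw [← List.append_assoc, ← List.append_assoc]
    exact List.Perm.append_right _ List.perm_append_comm
  have hW1 := WF.perm perm1 hW
  have w1 := wf_cons (p := T.pa₁) hW1
  have w2 := wf_cons (p := T.pb₁) w1.1
  have w3 := wf_cons (p := T.pa₂) w2.1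
  have w4 := wf_cons (p := T.pb₂) w3.1
  have w5 := wf_cons (p := pcA T) w4.1
  have w6 := wf_cons (p := pcB T) w5.1
  -- signs
  have hsig : ∀ {p : Pass}, p ∈ passes D → ∀ {q : Pass}, q ∈ tw T → m p.crossing = q.crossing →
      q.crossing ≠ p.crossing → p.isPos = !q.isPos := by
    intro p hp q hq hmq hqp
    obtain ⟨q', hq', h1, h2, h3⟩ := hM p (by rw [e0]; exact List.mem_append_left _ hp)
    have h4 : q'.isPos = q.isPos := by
      refine occ_unique hW ⟨q', hq', h1, rfl⟩ ⟨q, ?_, hmq.symm, rfl⟩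
      exact perm1.symm.subset (List.mem_append_left _ hq)
    rw [← h4, h3 (by rw [h1, hmq]; exact hqp), Bool.not_not]
  have hxa : T.a₁ ≠ p.crossing := (w1.2 p (by simp [hp])).symm
  have hyb : T.b₁ ≠ r.crossing := (w2.2 r (by simp [hr])).symm
  have hps : p.isPos = T.sa := by
    have := hsig hp (q := T.pa₁) (by simp [tw]) hma hxa
    simpa [Tri.pa₁] using this
  have hrs : r.isPos = T.sb := by
    have := hsig hr (q := T.pb₁) (by simp [tw]) hmb hyb
    simpa [Tri.pb₁] using this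
  obtain ⟨hpar, hsgn⟩ := par_sgn hOk hei hpo hro hps hrs
  -- splitting `D`
  have hab : T.b₁ ≠ T.a₁ := w1.2 T.pb₁ (by simp)
  have hxy : r.crossing ≠ p.crossing := fun e => hab (by rw [← hma, ← hmb, e])
  obtain ⟨l1, perm2⟩ := wf_split hD hp
  have v1 := wf_cons (WF.perm perm2 hD)
  have hr1 : r ∈ l1 := by
    have := perm2.subset hr
    simp only [List.mem_cons] at this
    rcases this with rfl | rfl | h
    · exact absurd rfl hxy
    · exact absurd rfl hxy
    · exact h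
  obtain ⟨l2, perm3⟩ := wf_split v1.1 hr1
  have v2 := wf_cons (WF.perm perm3 v1.1)
  have perm4 : (passes D).Perm (p :: p.mate :: r :: r.mate :: l2) :=
    perm2.trans (List.Perm.cons _ (List.Perm.cons _ perm3))
  have hl2 : ∀ q ∈ l2, q ∈ passes D := fun q hq => perm4.symm.subset (by simp [hq])
  have hl2x : ∀ q ∈ l2, q.crossing ≠ p.crossing ∧ q.crossing ≠ r.crossing := fun q hq =>
    ⟨v1.2 q (perm3.symm.subset (by simp [hq])), v2.2 q hq⟩
  have hW' : WF (passes D ++ (passes T.code ++ passes O)) := by rw [← e0]; exact hW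
  have hOx : ∀ q ∈ passes O, ∀ q' ∈ passes D, q.crossing ≠ q'.crossing := fun q hq q' hq' =>
    WF.ne_crossing hW' hq' (hD.1 q' hq') (List.mem_append_right _ hq)
  -- names
  have hnew' : ∀ q ∈ tw T ++ (passes D ++ passes O), q.crossing ≠ na ∧ q.crossing ≠ nb :=
    fun q hq => hnew q (perm1.symm.subset hq)
  have m1 := hnew' T.pa₁ (by simp [tw])
  have m2 := hnew' T.pb₁ (by simp [tw])
  have m3 := hnew' T.pa₂ (by simp [tw])
  have m4 := hnew' T.pb₂ (by simp [tw])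
  have m5 := hnew' (pcA T) (by simp [tw])
  have m6 := hnew' (pcB T) (by simp [tw])
  have m7 := hnew' p (by simp [hp])
  have m8 := hnew' r (by simp [hr])
  have nm1 : T.a₁ ≠ T.a₂ := (w1.2 T.pa₂ (by simp)).symm
  have nm2 : T.a₁ ≠ T.b₂ := (w1.2 T.pb₂ (by simp)).symm
  have nm3 : T.a₁ ≠ cA T := (w1.2 (pcA T) (by simp)).symm
  have nm4 : T.a₁ ≠ cB T := (w1.2 (pcB T) (by simp)).symm
  have nm5 : T.b₁ ≠ T.a₂ := (w2.2 T.pa₂ (by simp)).symm
  have nm6 : T.b₁ ≠ T.b₂ := (w2.2 T.pb₂ (by simp)).symm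
  have nm7 : T.b₁ ≠ cA T := (w2.2 (pcA T) (by simp)).symm
  have nm8 : T.b₁ ≠ cB T := (w2.2 (pcB T) (by simp)).symm
  have nm9 : T.a₂ ≠ T.b₂ := (w3.2 T.pb₂ (by simp)).symm
  have nm10 : T.a₂ ≠ cA T := (w3.2 (pcA T) (by simp)).symm
  have nm11 : T.a₂ ≠ cB T := (w3.2 (pcB T) (by simp)).symm
  have nm12 : T.b₂ ≠ cA T := (w4.2 (pcA T) (by simp)).symm
  have nm13 : T.b₂ ≠ cB T := (w4.2 (pcB T) (by simp)).symm
  have nm14 : cA T ≠ cB T := (w5.2 (pcB T) (by simp)).symm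
  have hDO : ∀ q ∈ passes D ++ passes O, q.crossing ≠ T.a₁ ∧ q.crossing ≠ T.a₂ ∧ q.crossing ≠ T.b₁ ∧
      q.crossing ≠ T.b₂ ∧ q.crossing ≠ cA T ∧ q.crossing ≠ cB T ∧ q.crossing ≠ na ∧ q.crossing ≠ nb := by
    intro q hq
    have h6 := hnew' q (List.mem_append_right _ hq)
    exact ⟨w1.2 q (by simp at hq ⊢; tauto), w3.2 q (by simp at hq ⊢; tauto),
      w2.2 q (by simp at hq ⊢; tauto), w4.2 q (by simp at hq ⊢; tauto),
      w5.2 q (by simp at hq ⊢; tauto), w6.2 q hq, h6.1, h6.2⟩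
  have hpx := hDO p (by simp [hp])
  have hrx := hDO r (by simp [hr])
  have hNod : [p.crossing, r.crossing, T.a₁, T.a₂, T.b₁, T.b₂, cA T, cB T, na, nb].Nodup := by
    simp only [List.nodup_cons, List.mem_cons, List.not_mem_nil, or_false, not_or, List.nodup_nil, and_true,
      not_false_eq_true]
    exact ⟨⟨hxy.symm, hpx.1, hpx.2.1, hpx.2.2.1, hpx.2.2.2.1, hpx.2.2.2.2.1, hpx.2.2.2.2.2.1, m7.1, m7.2⟩,
      ⟨hrx.1, hrx.2.1, hrx.2.2.1, hrx.2.2.2.1, hrx.2.2.2.2.1, hrx.2.2.2.2.2.1, m8.1, m8.2⟩,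
      ⟨nm1, hab.symm, nm2, nm3, nm4, m1.1, m1.2⟩, ⟨nm5.symm, nm9, nm10, nm11, m3.1, m3.2⟩,
      ⟨nm6, nm7, nm8, m2.1, m2.2⟩, ⟨nm12, nm13, m4.1, m4.2⟩, ⟨nm14, m5.1, m5.2⟩, ⟨m6.1, m6.2⟩, hne⟩
  exact ⟨l2, ⟨hNod, perm1, perm4, hDO, hl2x, fun q hq => ⟨hOx q hq p hp, hOx q hq r hr⟩, w6.1, hD, hma, hmb,
    hpo, hro, hps, hrs, hpar, hsgn, hei, hM⟩⟩

end Pool.Agent.Y968.TP
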