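import Pool.Agent.Y968.TP.OutC

/-!
# TP-OUT, part 4: the passages of the new diagram
-/

set_option autoImplicit false

namespace Pool.Agent.Y968.TP

open Pool.Agent.Y468.SR Pool.Agent.Y874.TP

variable {D O : Code} {T : Tri} {m : ℕ → ℕ} {p r : Pass} {na nb : ℕ} {l2 : List Pass}

theorem Cfg.xy (h : Cfg D O T m p r na nb l2) : r.crossing ≠ p.crossing := by
  have := h.nod
  simp only [List.nodup_cons, List.mem_cons, not_or] at this
  exact fun e => this.1.1 e.symm

theorem Cfg.nn (h : Cfg D O T m p r na nb l2) : na ≠ nb := by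
  have := h.nod
  simp only [List.nodup_cons, List.mem_cons, not_or] at this
  exact this.2.2.2.2.2.2.2.2.1.1

theorem Cfg.ext0 (h : Cfg D O T m p r na nb l2) (q : Pass) (h1 : q.crossing ≠ p.crossing)
    (h2 : q.crossing ≠ r.crossing) : ext p r T.tc na nb q = [q] := by
  unfold ext
  rw [if_neg (fun h => h1 (by rw [h])), if_neg (fun h => h2 (by rw [h])),
    if_neg (fun h => h1 (by rw [h]; rfl)), if_neg (fun h => h2 (by rw [h]; rfl))]

theorem Cfg.ext1 (h : Cfg D O T m p r na nb l2) : ext p r T.tc na nb p = [r] := by simp [ext]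

theorem Cfg.ext2 (h : Cfg D O T m p r na nb l2) : ext p r T.tc na nb r = [p] := by
  have q3 : r ≠ p := fun e => h.xy (by rw [e])
  simp [ext, q3]

theorem Cfg.ext3 (h : Cfg D O T m p r na nb l2) :
    ext p r T.tc na nb p.mate = [⟨na, T.tc, !sB T⟩, p.mate, ⟨nb, T.tc, sB T⟩] := by
  have q1 : p.mate ≠ p := fun e => by simpa using congrArg Pass.isOver e
  have q5 : p.mate ≠ r := fun e => h.xy (by rw [← e]; rfl)
  simp [ext, q1, q5, h.hsgn]

theorem Cfg.ext4 (h : Cfg D O T m p r na nb l2) : ext p r T.tc na nb r.mate =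
    if par p r then [⟨na, !T.tc, !sB T⟩, r.mate, ⟨nb, !T.tc, sB T⟩]
      else [⟨nb, !T.tc, sB T⟩, r.mate, ⟨na, !T.tc, !sB T⟩] := by
  have q2 : r.mate ≠ r := fun e => by simpa using congrArg Pass.isOver e
  have q4 : r.mate ≠ p := fun e => h.xy (by rw [← e]; rfl)
  have q6 : r.mate ≠ p.mate := fun e => h.xy (by have := congrArg Pass.crossing e; exact this)
  simp [ext, q2, q4, q6, h.hsgn]

theorem Cfg.fl2 (h : Cfg D O T m p r na nb l2) : l2.flatMap (ext p r T.tc na nb) = l2 := by
  have : ∀ l : List Pass, (∀ q ∈ l, q.crossing ≠ p.crossing ∧ q.crossing ≠ r.crossing) →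
      l.flatMap (ext p r T.tc na nb) = l := by
    intro l
    induction l with
    | nil => intro _; rfl
    | cons q l ih =>
      intro h'
      rw [List.flatMap_cons, h.ext0 q (h' q (by simp)).1 (h' q (by simp)).2, ih fun q' hq' => h' q' (by simp [hq'])]
      rfl
  exact this l2 h.l2x

def nA (T : Tri) (na : ℕ) : Pass := ⟨na, T.tc, !sB T⟩
def nB (T : Tri) (nb : ℕ) : Pass := ⟨nb, T.tc, sB T⟩

theorem Cfg.perm5 (h : Cfg D O T m p r na nb l2) : (passes (out p r T.tc na nb D ++ O)).Perm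
    (nA T na :: (nA T na).mate :: nB T nb :: (nB T nb).mate :: (passes D ++ passes O)) := by
  rw [passes_append, passes_out]
  have h1 : ((passes D).flatMap (ext p r T.tc na nb)).Perm
      (nA T na :: (nA T na).mate :: nB T nb :: (nB T nb).mate :: passes D) := by
    refine (List.Perm.flatMap_right _ h.perm4).trans ?_
    refine List.Perm.trans ?_ (List.Perm.cons _ (List.Perm.cons _ (List.Perm.cons _
      (List.Perm.cons _ h.perm4.symm))))
    simp only [List.flatMap_cons, h.ext1, h.ext2, h.ext3, h.ext4, h.fl2, List.cons_append, List.nil_append]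
    rw [List.perm_iff_count]
    intro q
    cases par p r <;>
      simp only [if_true, if_false, Bool.false_eq_true, List.count_cons, nA, nB,
        Pass.mate, List.cons_append, List.nil_append] <;> omega
  exact List.Perm.append_right _ h1

theorem Cfg.wf' (h : Cfg D O T m p r na nb l2) : WF (passes (out p r T.tc na nb D ++ O)) := by
  refine WF.perm h.perm5.symm ?_
  refine wf_add (wf_add h.wf rfl fun q hq => (h.dox q hq).2.2.2.2.2.2.2) rfl ?_
  intro q hq
  simp only [List.mem_cons] at hq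
  rcases hq with rfl | rfl | hq
  · exact h.nn.symm
  · exact h.nn.symm
  · exact (h.dox q hq).2.2.2.2.2.2.1

theorem occ_two (q : Pass) (P : List Pass) (c : ℕ) (s : Bool) :
    Occ (q :: q.mate :: P) c s ↔ (c = q.crossing ∧ s = q.isPos) ∨ Occ P c s := by
  rw [occ_cons, occ_cons, mate_crossing, mate_isPos]
  constructor
  · rintro (h | h | h)
    · exact Or.inl h
    · exact Or.inl h
    · exact Or.inr h
  · rintro (h | h)
    · exact Or.inl h
    · exact Or.inr (Or.inr h)

theorem Cfg.occ (h : Cfg D O T m p r na nb l2) (c : ℕ) (s : Bool) :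
    Occ (passes (D ++ (T.code ++ O))) c s ↔ (c = p.crossing ∧ s = T.sa) ∨
      (c = r.crossing ∧ s = T.sb) ∨ (c = T.a₁ ∧ s = !T.sa) ∨ (c = T.a₂ ∧ s = T.sa) ∨
      (c = T.b₁ ∧ s = !T.sb) ∨ (c = T.b₂ ∧ s = T.sb) ∨ (c = cA T ∧ s = !sB T) ∨ (c = cB T ∧ s = sB T) ∨
      Occ (l2 ++ passes O) c s := by
  rw [occ_perm (h.perm1.trans (List.Perm.append_left _ (List.Perm.append_right _ h.perm4)))]
  have e : Occ (tw T ++ ((p :: p.mate :: r :: r.mate :: l2) ++ passes O)) c s ↔
      (c = T.a₁ ∧ s = !T.sa) ∨ (c = T.b₁ ∧ s = !T.sb) ∨ (c = T.a₂ ∧ s = T.sa) ∨ (c = T.b₂ ∧ s = T.sb) ∨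
      (c = cA T ∧ s = !sB T) ∨ (c = cB T ∧ s = sB T) ∨ (c = p.crossing ∧ s = p.isPos) ∨
      (c = r.crossing ∧ s = r.isPos) ∨ Occ (l2 ++ passes O) c s := by
    simp only [tw, List.cons_append, List.nil_append]
    rw [occ_two, occ_two, occ_two, occ_two, occ_two, occ_two, occ_two, occ_two]
    exact Iff.rfl
  rw [e, h.hps, h.hrs]
  generalize (c = T.a₁ ∧ s = !T.sa) = A1
  generalize (c = T.b₁ ∧ s = !T.sb) = B1
  generalize (c = T.a₂ ∧ s = T.sa) = A2
  generalize (c = T.b₂ ∧ s = T.sb) = B2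
  generalize (c = cA T ∧ s = !sB T) = A3
  generalize (c = cB T ∧ s = sB T) = B3
  generalize (c = p.crossing ∧ s = T.sa) = A4
  generalize (c = r.crossing ∧ s = T.sb) = B4
  generalize Occ (l2 ++ passes O) c s = R
  constructor
  · rintro (h | h | h | h | h | h | h | h | h) <;> simp [h]
  · rintro (h | h | h | h | h | h | h | h | h) <;> simp [h]

theorem Cfg.occ' (h : Cfg D O T m p r na nb l2) (c : ℕ) (s : Bool) :
    Occ (passes (out p r T.tc na nb D ++ O)) c s ↔ (c = p.crossing ∧ s = T.sa) ∨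
      (c = r.crossing ∧ s = T.sb) ∨ (c = na ∧ s = !sB T) ∨ (c = nb ∧ s = sB T) ∨
      Occ (l2 ++ passes O) c s := by
  rw [occ_perm (h.perm5.trans (List.Perm.cons _ (List.Perm.cons _ (List.Perm.cons _ (List.Perm.cons _
      (List.Perm.append_right _ h.perm4))))))]
  have e : Occ (nA T na :: (nA T na).mate :: nB T nb :: (nB T nb).mate ::
      ((p :: p.mate :: r :: r.mate :: l2) ++ passes O)) c s ↔
      (c = na ∧ s = !sB T) ∨ (c = nb ∧ s = sB T) ∨ (c = p.crossing ∧ s = p.isPos) ∨
      (c = r.crossing ∧ s = r.isPos) ∨ Occ (l2 ++ passes O) c s := by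
    simp only [List.cons_append]
    rw [occ_two, occ_two, occ_two, occ_two]
    exact Iff.rfl
  rw [e, h.hps, h.hrs]
  generalize (c = na ∧ s = !sB T) = A3
  generalize (c = nb ∧ s = sB T) = B3
  generalize (c = p.crossing ∧ s = T.sa) = A4
  generalize (c = r.crossing ∧ s = T.sb) = B4
  generalize Occ (l2 ++ passes O) c s = R
  constructor
  · rintro (h | h | h | h | h) <;> simp [h]
  · rintro (h | h | h | h | h) <;> simp [h]

theorem Cfg.occR (h : Cfg D O T m p r na nb l2) (c : ℕ) (s : Bool) (hc : Occ (l2 ++ passes O) c s) :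
    c ∉ [p.crossing, r.crossing, T.a₁, T.a₂, T.b₁, T.b₂, cA T, cB T, na, nb] := by
  obtain ⟨q, hq, rfl, rfl⟩ := hc
  simp only [List.mem_cons, List.not_mem_nil, or_false, not_or]
  have h1 : q ∈ passes D ++ passes O := by
    rcases List.mem_append.1 hq with h' | h'
    · exact List.mem_append_left _ (h.perm4.symm.subset (by simp [h']))
    · exact List.mem_append_right _ h'
  have h2 := h.dox q h1
  have h4 : q.crossing ≠ p.crossing ∧ q.crossing ≠ r.crossing := by
    rcases List.mem_append.1 hq with h' | h'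
    · exact h.l2x q h'
    · exact h.ox q h'
  exact ⟨h4.1, h4.2, h2.1, h2.2.1, h2.2.2.1, h2.2.2.2.1, h2.2.2.2.2.1, h2.2.2.2.2.2.1, h2.2.2.2.2.2.2.1,
    h2.2.2.2.2.2.2.2⟩

/-- the transport of the matching -/
theorem Cfg.tr (h : Cfg D O T m p r na nb l2) : Tr (passes (D ++ (T.code ++ O)))
    (passes (out p r T.tc na nb D ++ O)) m (KK p.crossing r.crossing T.a₁ T.b₁)
    (sub4 p.crossing r.crossing na nb T.a₂ T.b₂ (cA T) (cB T))
    (sub4 T.a₂ T.b₂ (cA T) (cB T) p.crossing r.crossing na nb) :=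
  tr_main h.nod h.occ h.occ' h.occR h.hM h.hma h.hmb

theorem Cfg.col (h : Cfg D O T m p r na nb l2) (hCol : T.Col) (hca : colour na = colour T.c₁)
    (hcb : colour nb = colour T.c₁) (hCM : CM (passes (D ++ (T.code ++ O))) m) (d : ℕ) :
    colour (sub4 T.a₂ T.b₂ (cA T) (cB T) p.crossing r.crossing na nb d) = colour d := by
  have hp : p ∈ passes (D ++ (T.code ++ O)) := by
    rw [passes_append]
    exact List.mem_append_left _ (h.perm4.symm.subset (by simp))
  have hr : r ∈ passes (D ++ (T.code ++ O)) := by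
    rw [passes_append]
    exact List.mem_append_left _ (h.perm4.symm.subset (by simp))
  have k1 := (hCM p hp).1
  have k2 := (hCM r hr).1
  rw [h.hma] at k1
  rw [h.hmb] at k2
  unfold sub4
  split_ifs with h1 h2 h3 h4
  · rw [h1, hCol.1, k1]
  · rw [h2, hCol.2.1, k2]
  · rw [h3, hca]
    unfold cA
    split_ifs
    · exact hCol.2.2.symm
    · rfl
  · rw [h4, hcb]
    unfold cB
    split_ifs
    · rfl
    · exact hCol.2.2.symm
  · rfl

end Pool.Agent.Y968.TP
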