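import Pool.Agent.Y968.TP.OutD

/-!
# TP-OUT, part 5: the labels of the old diagram
-/

set_option autoImplicit false

namespace Pool.Agent.Y968.TP

open Pool.Agent.Y468.SR Pool.Agent.Y874.TP

variable {D O : Code} {T : Tri} {m : ℕ → ℕ} {p r : Pass} {na nb : ℕ} {l2 : List Pass}

section
variable {G : Type} [Group G] (o u : ℕ → G) (T : Tri) (p r : Pass) (na nb : ℕ)

def gR : G := VV o u r.crossing T.tb
def gP : G := gR o u T r * VV o u p.crossing T.ta * (gR o u T r)⁻¹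
def gPm : G := VV o u na T.tc * VV o u p.crossing (!T.ta) * VV o u nb T.tc
def gRm : G := if par p r then VV o u na (!T.tc) * VV o u r.crossing (!T.tb) * VV o u nb (!T.tc)
      else VV o u nb (!T.tc) * VV o u r.crossing (!T.tb) * VV o u na (!T.tc)

/-- the labels of the old diagram -/
def gW : ℕ → Bool → G := WW p.crossing r.crossing T.a₁ T.b₁ T.ta T.tb (gP o u T p r) (gPm o u T p na nb)
  (gR o u T r) (gRm o u T p r na nb)
  (fun c l => VV o u (sub4 T.a₂ T.b₂ (cA T) (cB T) p.crossing r.crossing na nb c) l)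

end

section
variable {G : Type} [Group G] {o u : ℕ → G}

theorem Cfg.names (h : Cfg D O T m p r na nb l2) :
    (p.crossing ≠ r.crossing ∧ p.crossing ≠ T.a₁ ∧ p.crossing ≠ T.a₂ ∧ p.crossing ≠ T.b₁ ∧
      p.crossing ≠ T.b₂ ∧ p.crossing ≠ cA T ∧ p.crossing ≠ cB T) ∧
    (r.crossing ≠ T.a₁ ∧ r.crossing ≠ T.a₂ ∧ r.crossing ≠ T.b₁ ∧ r.crossing ≠ T.b₂ ∧ r.crossing ≠ cA T ∧
      r.crossing ≠ cB T) ∧
    (T.a₁ ≠ T.a₂ ∧ T.a₁ ≠ T.b₁ ∧ T.a₁ ≠ T.b₂ ∧ T.a₁ ≠ cA T ∧ T.a₁ ≠ cB T) ∧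
    (T.a₂ ≠ T.b₁ ∧ T.a₂ ≠ T.b₂ ∧ T.a₂ ≠ cA T ∧ T.a₂ ≠ cB T) ∧
    (T.b₁ ≠ T.b₂ ∧ T.b₁ ≠ cA T ∧ T.b₁ ≠ cB T) ∧ (T.b₂ ≠ cA T ∧ T.b₂ ≠ cB T) ∧ cA T ≠ cB T := by
  have := h.nod
  simp only [List.nodup_cons, List.mem_cons, List.not_mem_nil, or_false, not_or, List.nodup_nil, and_true,
    not_false_eq_true] at this
  obtain ⟨⟨n1, n2, n3, n4, n5, n6, n7, n8, n9⟩, ⟨p2, p3, p4, p5, p6, p7, p8, p9⟩, ⟨q3, q4, q5, q6, q7, q8, q9⟩,
    ⟨r4, r5, r6, r7, r8, r9⟩, ⟨s5, s6, s7, s8, s9⟩, ⟨t6, t7, t8, t9⟩, ⟨u7, u8, u9⟩, ⟨v8, v9⟩, w9⟩ := this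
  exact ⟨⟨n1, n2, n3, n4, n5, n6, n7⟩, ⟨p2, p3, p4, p5, p6, p7⟩, ⟨q3, q4, q5, q6, q7⟩, ⟨r4, r5, r6, r7⟩,
    ⟨s5, s6, s7⟩, ⟨t6, t7⟩, u7⟩

theorem Cfg.W1 (h : Cfg D O T m p r na nb l2) : gW o u T p r na nb p.crossing T.ta = gP o u T p r := by
  simp [gW, WW]

theorem Cfg.W2 (h : Cfg D O T m p r na nb l2) : gW o u T p r na nb p.crossing (!T.ta) = gPm o u T p na nb := by
  simp [gW, WW]

theorem Cfg.W5 (h : Cfg D O T m p r na nb l2) : gW o u T p r na nb r.crossing T.tb = gR o u T r := by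
  obtain ⟨n1, n2, -⟩ := h.names
  simp [gW, WW, Ne.symm n1.1, n2.1]

theorem Cfg.W6 (h : Cfg D O T m p r na nb l2) :
    gW o u T p r na nb r.crossing (!T.tb) = gRm o u T p r na nb := by
  obtain ⟨n1, n2, -⟩ := h.names
  simp [gW, WW, Ne.symm n1.1, n2.1]

theorem Cfg.W9 (h : Cfg D O T m p r na nb l2) {d : ℕ} (l : Bool)
    (hd : KK p.crossing r.crossing T.a₁ T.b₁ d) : gW o u T p r na nb d l =
      VV o u (sub4 T.a₂ T.b₂ (cA T) (cB T) p.crossing r.crossing na nb d) l := by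
  obtain ⟨k1, k2, k3, k4⟩ := hd
  simp [gW, WW, k1, k2, k3, k4]

theorem Cfg.inv1 (h : Cfg D O T m p r na nb l2) (l : Bool) :
    gW o u T p r na nb T.a₁ l = (gW o u T p r na nb p.crossing l)⁻¹ := by
  obtain ⟨n1, n2, -⟩ := h.names
  unfold gW WW
  rw [if_neg (Ne.symm n1.2.1), if_pos rfl, if_pos rfl]
  split_ifs <;> rfl

theorem Cfg.inv2 (h : Cfg D O T m p r na nb l2) (l : Bool) :
    gW o u T p r na nb T.b₁ l = (gW o u T p r na nb r.crossing l)⁻¹ := by
  obtain ⟨n1, n2, n3, n4, n5, n6, n7⟩ := h.names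
  unfold gW WW
  rw [if_neg (Ne.symm n1.2.2.2.1), if_neg (Ne.symm n3.2.1), if_neg (Ne.symm n2.2.2.1), if_pos rfl,
    if_neg (Ne.symm n1.1), if_neg n2.1, if_pos rfl]
  split_ifs <;> rfl

theorem Cfg.valid (h : Cfg D O T m p r na nb l2) (hv : Valid (passes (out p r T.tc na nb D ++ O))
    (fun c => sub4 T.a₂ T.b₂ (cA T) (cB T) p.crossing r.crossing na nb
      (m (sub4 p.crossing r.crossing na nb T.a₂ T.b₂ (cA T) (cB T) c))) o u) :
    Valid (passes (D ++ (T.code ++ O))) m (fun c => gW o u T p r na nb c true)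
      (fun c => gW o u T p r na nb c false) := by
  have hp : p ∈ passes (D ++ (T.code ++ O)) := by
    rw [passes_append]
    exact List.mem_append_left _ (h.perm4.symm.subset (by simp))
  have hr : r ∈ passes (D ++ (T.code ++ O)) := by
    rw [passes_append]
    exact List.mem_append_left _ (h.perm4.symm.subset (by simp))
  obtain ⟨n1, n2, n3, n4, n5, n6, n7⟩ := h.names
  have hM' := matching_iff.1 h.hM
  have ma : m T.a₁ = p.crossing := by
    obtain ⟨s', h1, h2, h3⟩ := hM' p.crossing p.isPos ⟨p, hp, rfl, rfl⟩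
    rw [h.hma] at h2
    exact h2
  have mb : m T.b₁ = r.crossing := by
    obtain ⟨s', h1, h2, h3⟩ := hM' r.crossing r.isPos ⟨r, hr, rfl, rfl⟩
    rw [h.hmb] at h2
    exact h2
  refine h.tr.valid h.hM hv (fun d s _ hk => ?_) (fun d s hd hk => ?_)
  · refine ⟨?_, ?_⟩
    · show gW o u T p r na nb d true = _
      rw [h.W9 true hk]
      simp [VV]
    · show gW o u T p r na nb d false = _
      rw [h.W9 false hk]
      simp [VV]
  · unfold KK at hk
    have hk' : d = p.crossing ∨ d = T.a₁ ∨ d = r.crossing ∨ d = T.b₁ := by tauto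
    rcases hk' with rfl | rfl | rfl | rfl
    · rw [h.hma]
      exact ⟨Ne.symm n1.2.1, h.inv1 _, h.inv1 _⟩
    · rw [ma]
      refine ⟨n1.2.1, ?_, ?_⟩
      · show gW o u T p r na nb p.crossing true = (gW o u T p r na nb T.a₁ true)⁻¹
        rw [h.inv1, inv_inv]
      · show gW o u T p r na nb p.crossing false = (gW o u T p r na nb T.a₁ false)⁻¹
        rw [h.inv1, inv_inv]
    · rw [h.hmb]
      exact ⟨Ne.symm n2.2.2.1, h.inv2 _, h.inv2 _⟩
    · rw [mb]
      refine ⟨n2.2.2.1, ?_, ?_⟩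
      · show gW o u T p r na nb r.crossing true = (gW o u T p r na nb T.b₁ true)⁻¹
        rw [h.inv2, inv_inv]
      · show gW o u T p r na nb r.crossing false = (gW o u T p r na nb T.b₁ false)⁻¹
        rw [h.inv2, inv_inv]

theorem val_gW (q : Pass) : val (fun c => gW o u T p r na nb c true) (fun c => gW o u T p r na nb c false) q =
    gW o u T p r na nb q.crossing q.isOver := by
  rw [val_VV, VV_mk]

theorem Cfg.other (h : Cfg D O T m p r na nb l2) (q : Pass) (hq : q ∈ passes D ++ passes O)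
    (k1 : q.crossing ≠ p.crossing) (k2 : q.crossing ≠ r.crossing) :
    val (fun c => gW o u T p r na nb c true) (fun c => gW o u T p r na nb c false) q = val o u q := by
  obtain ⟨d1, d2, d3, d4, d5, d6, -⟩ := h.dox q hq
  rw [val_gW, h.W9 _ ⟨k1, d1, k2, d3⟩, val_VV]
  congr 1
  simp [sub4, d2, d4, d5, d6]

theorem Cfg.valsO (h : Cfg D O T m p r na nb l2) :
    vals (fun c => gW o u T p r na nb c true) (fun c => gW o u T p r na nb c false) O = vals o u O := by
  unfold vals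
  refine List.map_congr_left fun C' hC' => ?_
  have : wval (fun c => gW o u T p r na nb c true) (fun c => gW o u T p r na nb c false) C'.1 = wval o u C'.1 := by
    unfold wval
    congr 1
    refine List.map_congr_left fun q hq => ?_
    have hqO : q ∈ passes O := mem_passes.2 ⟨C', hC', hq⟩
    exact h.other q (List.mem_append_right _ hqO) (h.ox q hqO).1 (h.ox q hqO).2
  rw [this]

theorem Cfg.pass (h : Cfg D O T m p r na nb l2) (q : Pass) (hq : q ∈ passes D) (k1 : q ≠ p) (k2 : q ≠ r) :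
    val (fun c => gW o u T p r na nb c true) (fun c => gW o u T p r na nb c false) q =
      wval o u (ext p r T.tc na nb q) := by
  have h2 := h.perm4.subset hq
  simp only [List.mem_cons] at h2
  rcases h2 with rfl | rfl | rfl | rfl | h2
  · exact absurd rfl k1
  · rw [h.ext3, val_gW, mate_crossing, mate_isOver, h.hpo, h.W2]
    simp only [wval_cons, wval_nil, mul_one, val_VV, mate_crossing, mate_isOver, h.hpo]
    rw [gPm, mul_assoc]
  · exact absurd rfl k2
  · rw [h.ext4, val_gW, mate_crossing, mate_isOver, h.hro, h.W6, gRm]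
    split_ifs
    · simp only [wval_cons, wval_nil, mul_one, val_VV, mate_crossing, mate_isOver, h.hro, mul_assoc]
    · simp only [wval_cons, wval_nil, mul_one, val_VV, mate_crossing, mate_isOver, h.hro, mul_assoc]
  · have h3 := h.l2x q h2
    rw [h.ext0 q h3.1 h3.2, h.other q (List.mem_append_left _ hq) h3.1 h3.2]
    simp

theorem Cfg.word0 (h : Cfg D O T m p r na nb l2) (w : List Pass) (hw : ∀ q ∈ w, q ∈ passes D) (h3 : p ∉ w)
    (h4 : r ∉ w) : wval (fun c => gW o u T p r na nb c true) (fun c => gW o u T p r na nb c false) w =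
      wval o u (w.flatMap (ext p r T.tc na nb)) := by
  induction w with
  | nil => rfl
  | cons q w ih =>
    simp only [List.mem_cons, not_or] at h3 h4
    rw [wval_cons, List.flatMap_cons, wval_append, ih (fun q' hq' => hw q' (by simp [hq'])) h3.2 h4.2,
      h.pass q (hw q (by simp)) (fun e => h3.1 e.symm) (fun e => h4.1 e.symm)]

theorem Cfg.word1 (h : Cfg D O T m p r na nb l2) (w : List Pass) (hw : ∀ q ∈ w, q ∈ passes D)
    (ha : Adj p r w) : wval (fun c => gW o u T p r na nb c true) (fun c => gW o u T p r na nb c false) w =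
      wval o u (w.flatMap (ext p r T.tc na nb)) := by
  rcases ha with ⟨h3, h4⟩ | ⟨w₁, w₂, rfl, h3, h4, h5, h6⟩
  · exact h.word0 w hw h3 h4
  · rw [wval_append, wval_cons, wval_cons, h.word0 w₁ (fun q hq' => hw q (by simp [hq'])) h3 h4,
      h.word0 w₂ (fun q hq' => hw q (by simp [hq'])) h5 h6, List.flatMap_append, List.flatMap_cons,
      List.flatMap_cons, h.ext1, h.ext2, wval_append, wval_append, wval_append, val_gW, val_gW, h.hpo, h.hro,
      h.W1, h.W5]
    simp only [wval_cons, wval_nil, mul_one, val_VV, h.hpo, h.hro]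
    rw [gP, gR]
    group

theorem Cfg.valsD (h : Cfg D O T m p r na nb l2) {C : List Pass × ℕ} (hC : C ∈ D) {a c : List Pass}
    (hsplit : C.1 = a ++ p :: r :: c) :
    vals (fun c => gW o u T p r na nb c true) (fun c => gW o u T p r na nb c false) D =
      vals o u (out p r T.tc na nb D) := by
  have hadj := adj_all (WF.nodup h.wfD) hC hsplit
  unfold vals out
  rw [List.map_map]
  refine List.map_congr_left fun C' hC' => ?_
  simp only [Function.comp]
  rw [h.word1 C'.1 (fun q hq' => mem_passes.2 ⟨C', hC', hq'⟩) (hadj C' hC')]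

theorem Cfg.z1 (h : Cfg D O T m p r na nb l2) (l : Bool) :
    gW o u T p r na nb T.a₂ l = VV o u p.crossing l := by
  obtain ⟨n1, n2, n3, n4, n5, n6, n7⟩ := h.names
  rw [h.W9 _ ⟨Ne.symm n1.2.2.1, Ne.symm n3.1, Ne.symm n2.2.1, n4.1⟩]
  congr 1
  simp [sub4]

theorem Cfg.z2 (h : Cfg D O T m p r na nb l2) (l : Bool) :
    gW o u T p r na nb T.b₂ l = VV o u r.crossing l := by
  obtain ⟨n1, n2, n3, n4, n5, n6, n7⟩ := h.names
  rw [h.W9 _ ⟨Ne.symm n1.2.2.2.2.1, Ne.symm n3.2.2.1, Ne.symm n2.2.2.2.1, Ne.symm n5.1⟩]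
  congr 1
  simp [sub4, Ne.symm n4.2.1]

theorem Cfg.z3 (h : Cfg D O T m p r na nb l2) (l : Bool) :
    gW o u T p r na nb (cA T) l = VV o u na l := by
  obtain ⟨n1, n2, n3, n4, n5, n6, n7⟩ := h.names
  rw [h.W9 _ ⟨Ne.symm n1.2.2.2.2.2.1, Ne.symm n3.2.2.2.1, Ne.symm n2.2.2.2.2.1, Ne.symm n5.2.1⟩]
  congr 1
  simp [sub4, Ne.symm n4.2.2.1, Ne.symm n6.1]

theorem Cfg.z4 (h : Cfg D O T m p r na nb l2) (l : Bool) :
    gW o u T p r na nb (cB T) l = VV o u nb l := by
  obtain ⟨n1, n2, n3, n4, n5, n6, n7⟩ := h.names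
  rw [h.W9 _ ⟨Ne.symm n1.2.2.2.2.2.2, Ne.symm n3.2.2.2.2, Ne.symm n2.2.2.2.2.2, Ne.symm n5.2.2⟩]
  congr 1
  simp [sub4, Ne.symm n4.2.2.2, Ne.symm n6.2, Ne.symm n7]

end

end Pool.Agent.Y968.TP
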